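import Mathlib

/-!
# Multiplicities of the eigenvalues of Frobenius that are not roots of unity

A Gauss lemma argument: if `p ^ D * P` is integral, `P` monic with complex roots of absolute
value one, then the multiplicity in `P` of an irreducible factor without roots of unity is at
most `D`, and at most the number `K` of roots of negative valuation.
-/

open Polynomial

namespace Pool.Agent.Helper40.Frob

/-- a rational polynomial none of whose complex roots is a root of unity -/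
def NoUnityRoot (Q : ℚ[X]) : Prop := ∀ z : ℂ, aeval z Q = 0 → ∀ n : ℕ, 0 < n → z ^ n ≠ 1

/-- a primitive integral multiple -/
theorem exists_primitive {Q : ℚ[X]} (hQ : Q ≠ 0) :
    ∃ (Q0 : ℤ[X]) (c : ℚ), c ≠ 0 ∧ Q0.IsPrimitive ∧ Q0.map (Int.castRingHom ℚ) = C c * Q := by
  obtain ⟨⟨b, hb⟩, h1⟩ := IsLocalization.integerNormalization_map_to_map (nonZeroDivisors ℤ) Q
  set R := IsLocalization.integerNormalization (nonZeroDivisors ℤ) Q with hR
  have hb0 : b ≠ 0 := nonZeroDivisors.ne_zero hb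
  have hR0 : R ≠ 0 := by
    intro h
    rw [h] at h1
    have h2 : (b : ℤ) • Q = 0 := by
      rw [← h1]
      simp
    rcases smul_eq_zero.1 h2 with h3 | h3
    · exact hb0 h3
    · exact hQ h3
  have hc0 : R.content ≠ 0 := by
    rwa [Ne, content_eq_zero_iff]
  refine ⟨R.primPart, (b : ℚ) / (R.content : ℚ), ?_, R.isPrimitive_primPart, ?_⟩
  · exact div_ne_zero (by exact_mod_cast hb0) (by exact_mod_cast hc0)
  · have h2 : R = C R.content * R.primPart := R.eq_C_content_mul_primPart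
    have h3 : R.map (Int.castRingHom ℚ) = C (b : ℚ) * Q := by
      have : algebraMap ℤ ℚ = Int.castRingHom ℚ := rfl
      rw [this] at h1
      rw [h1]
      change (b : ℤ) • Q = C (b : ℚ) * Q
      ext n
      simp
    have h4 : C (R.content : ℚ) * R.primPart.map (Int.castRingHom ℚ) = C (b : ℚ) * Q := by
      rw [← h3]
      conv_rhs => rw [h2]
      simp
    have h5 : C ((R.content : ℚ)⁻¹) * (C (R.content : ℚ) * R.primPart.map (Int.castRingHom ℚ)) =
        C ((R.content : ℚ)⁻¹) * (C (b : ℚ) * Q) := by rw [h4]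
    rw [← mul_assoc, ← C_mul, inv_mul_cancel₀ (by exact_mod_cast hc0), C_1, one_mul,
      ← mul_assoc, ← C_mul] at h5
    rw [h5, div_eq_inv_mul]

/-- Kronecker: an irreducible factor with an integral multiple of leading coefficient `±1` has
roots of unity as roots. -/
theorem kronecker {Q : ℚ[X]} (hQ : Irreducible Q) (hW : ∀ z : ℂ, aeval z Q = 0 → ‖z‖ = 1)
    (hQ1 : NoUnityRoot Q) {Q0 : ℤ[X]} {c : ℚ}
    (hQ0 : Q0.map (Int.castRingHom ℚ) = C c * Q) (hl : IsUnit Q0.leadingCoeff) : False := by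
  haveI : Fact (Irreducible Q) := ⟨hQ⟩
  haveI : FiniteDimensional ℚ (AdjoinRoot Q) := (AdjoinRoot.powerBasis hQ.ne_zero).finite
  haveI : NumberField (AdjoinRoot Q) := { to_charZero := inferInstance, to_finiteDimensional := inferInstance }
  set x : AdjoinRoot Q := AdjoinRoot.root Q with hx
  have hxQ : aeval x Q = 0 := by
    rw [aeval_def, Subsingleton.elim (algebraMap ℚ (AdjoinRoot Q)) (AdjoinRoot.of Q), hx,
      AdjoinRoot.eval₂_root]
  have hx0 : aeval x Q0 = 0 := by
    have h1 : aeval x (Q0.map (Int.castRingHom ℚ)) = 0 := by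
      rw [hQ0, map_mul, hxQ, mul_zero]
    have h2 : aeval x (Q0.map (algebraMap ℤ ℚ)) = aeval x Q0 := aeval_map_algebraMap ℚ x Q0
    rw [← h2]
    exact h1
  have hint : IsIntegral ℤ x := by
    obtain ⟨u, hu⟩ := hl
    refine ⟨C (↑u⁻¹ : ℤ) * Q0, ?_, ?_⟩
    · unfold Monic
      rw [leadingCoeff_mul, leadingCoeff_C, ← hu]
      exact u.inv_mul
    · change aeval x (C (↑u⁻¹ : ℤ) * Q0) = 0
      rw [map_mul, hx0, mul_zero]
  have hroot : ∀ φ : AdjoinRoot Q →+* ℂ, aeval (φ x) Q = 0 := by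
    intro φ
    have h1 : aeval ((RingHom.toRatAlgHom φ) x) Q = (RingHom.toRatAlgHom φ) (aeval x Q) :=
      aeval_algHom_apply _ _ _
    rw [hxQ, map_zero] at h1
    exact h1
  obtain ⟨n, hn, hxn⟩ := NumberField.Embeddings.pow_eq_one_of_norm_eq_one (AdjoinRoot Q) ℂ hint
    (fun φ => hW _ (hroot φ))
  let φ : AdjoinRoot Q →+* ℂ := (IsAlgClosed.lift (R := ℚ) (M := ℂ) (S := AdjoinRoot Q)).toRingHom
  exact hQ1 (φ x) (hroot φ) n hn (by rw [← map_pow, hxn, map_one])

theorem mult_le {p : ℕ} (hp : p.Prime) {P : ℚ[X]} (hPm : P.Monic)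
    (hW : ∀ z : ℂ, aeval z P = 0 → ‖z‖ = 1) {P0 : ℤ[X]} {D : ℕ}
    (hP0 : P0.map (Int.castRingHom ℚ) = C ((p : ℚ) ^ D) * P)
    {Q : ℚ[X]} (hQ : Irreducible Q) (hQ1 : NoUnityRoot Q) {e : ℕ} (he : Q ^ e ∣ P) :
    e ≤ D ∧ ∀ K : ℕ, (∃ j, P.natDegree ≤ j + K ∧ ¬ (p : ℤ) ∣ P0.coeff j) → e ≤ K := by
  rcases Nat.eq_zero_or_pos e with rfl | hepos
  · exact ⟨Nat.zero_le _, fun _ _ => Nat.zero_le _⟩
  have hp0 : ((p : ℚ) ^ D) ≠ 0 := pow_ne_zero _ (by exact_mod_cast hp.ne_zero)
  have hQP : Q ∣ P := (dvd_pow_self Q hepos.ne').trans he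
  obtain ⟨Q0, c, hc, hprim, hQ0⟩ := exists_primitive hQ.ne_zero
  have hinj : Function.Injective (Int.castRingHom ℚ) := Int.cast_injective
  have hdeg : Q0.natDegree = Q.natDegree := by
    rw [← natDegree_map_eq_of_injective hinj, hQ0, natDegree_C_mul hc]
  have hQ0e : (Q0 ^ e).IsPrimitive := by
    clear he hepos
    induction e with
    | zero => rw [pow_zero]; exact isPrimitive_one
    | succ k ih => rw [pow_succ]; exact ih.mul hprim
  obtain ⟨R0, hR0⟩ : Q0 ^ e ∣ P0 := by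
    rw [IsPrimitive.Int.dvd_iff_map_cast_dvd_map_cast _ _ hQ0e, Polynomial.map_pow, hQ0, hP0,
      mul_pow, ← C_pow]
    have h1 : C (c ^ e) * Q ^ e ∣ C (c ^ e) * P := mul_dvd_mul_left _ he
    refine h1.trans ?_
    refine ⟨C ((c ^ e)⁻¹ * (p : ℚ) ^ D), ?_⟩
    rw [C_mul]
    have h2 : C (c ^ e) * C ((c ^ e)⁻¹) = (1 : ℚ[X]) := by
      rw [← C_mul, mul_inv_cancel₀ (pow_ne_zero _ hc), C_1]
    calc C ((p : ℚ) ^ D) * P = (C (c ^ e) * C ((c ^ e)⁻¹)) * (C ((p : ℚ) ^ D) * P) := by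
          rw [h2, one_mul]
      _ = _ := by ring
  have hlead : P0.leadingCoeff = (p : ℤ) ^ D := by
    have h1 : (P0.map (Int.castRingHom ℚ)).leadingCoeff = (p : ℚ) ^ D := by
      rw [hP0, leadingCoeff_mul, leadingCoeff_C, hPm.leadingCoeff, mul_one]
    rw [leadingCoeff_map_of_injective hinj] at h1
    have h2 : ((P0.leadingCoeff : ℤ) : ℚ) = (((p : ℤ) ^ D : ℤ) : ℚ) := by
      push_cast
      exact h1
    exact_mod_cast h2
  have hPdeg : P0.natDegree = P.natDegree := by
    rw [← natDegree_map_eq_of_injective hinj, hP0, natDegree_C_mul hp0]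
  have hP00 : P0 ≠ 0 := by
    intro h0
    rw [h0, leadingCoeff_zero] at hlead
    exact pow_ne_zero D (by exact_mod_cast hp.ne_zero : (p : ℤ) ≠ 0) hlead.symm
  have hR00 : R0 ≠ 0 := by
    rintro rfl
    exact hP00 (by rw [hR0, mul_zero])
  have hQ00 : Q0 ≠ 0 := hprim.ne_zero
  have hlc : P0.leadingCoeff = Q0.leadingCoeff ^ e * R0.leadingCoeff := by
    rw [hR0, leadingCoeff_mul, leadingCoeff_pow]
  have hpp : Prime (p : ℤ) := Nat.prime_iff_prime_int.1 hp
  -- `p` divides the leading coefficient of `Q0`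
  have hpQ : (p : ℤ) ∣ Q0.leadingCoeff := by
    by_contra hn
    have h1 : Q0.leadingCoeff ∣ (p : ℤ) ^ D := by
      rw [← hlead, hlc]
      exact (dvd_pow_self _ hepos.ne').mul_right _
    obtain ⟨i, -, hi⟩ := (dvd_prime_pow hpp D).1 h1
    have hi0 : i = 0 := by
      by_contra hi0
      apply hn
      exact (dvd_pow_self (p : ℤ) hi0).trans hi.symm.dvd
    rw [hi0, pow_zero] at hi
    refine kronecker hQ (fun z hz => hW z ?_) hQ1 hQ0 (associated_one_iff_isUnit.1 hi)
    obtain ⟨R, hR⟩ := hQP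
    rw [hR, map_mul, hz, zero_mul]
  refine ⟨?_, ?_⟩
  · have h1 : (p : ℤ) ^ e ∣ (p : ℤ) ^ D := by
      rw [← hlead, hlc]
      exact (pow_dvd_pow_of_dvd hpQ e).mul_right _
    have h2 : p ^ e ∣ p ^ D := by exact_mod_cast h1
    exact (Nat.pow_dvd_pow_iff_le_right hp.one_lt).1 h2
  · rintro K ⟨j, hj, hpj⟩
    haveI : Fact p.Prime := ⟨hp⟩
    let f : ℤ →+* ZMod p := Int.castRingHom (ZMod p)
    have hfl : f Q0.leadingCoeff = 0 := by
      change ((Q0.leadingCoeff : ℤ) : ZMod p) = 0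
      rw [ZMod.intCast_zmod_eq_zero_iff_dvd]
      exact hpQ
    have hposdeg : 0 < Q0.natDegree := by
      rw [hdeg]
      exact hQ.natDegree_pos
    have h1 : (Q0.map f).natDegree < Q0.natDegree := natDegree_map_lt' hfl hposdeg
    have h2 : j ≤ (P0.map f).natDegree := by
      apply le_natDegree_of_ne_zero
      rw [coeff_map]
      change ((P0.coeff j : ℤ) : ZMod p) ≠ 0
      rw [Ne, ZMod.intCast_zmod_eq_zero_iff_dvd]
      exact hpj
    have h3 : (P0.map f).natDegree ≤ e * (Q0.map f).natDegree + R0.natDegree := by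
      rw [hR0, Polynomial.map_mul, Polynomial.map_pow]
      refine natDegree_mul_le.trans ?_
      exact add_le_add natDegree_pow_le natDegree_map_le
    have h4 : P0.natDegree = e * Q0.natDegree + R0.natDegree := by
      rw [hR0, natDegree_mul (pow_ne_zero _ hQ00) hR00, natDegree_pow]
    have h5 : e * (Q0.map f).natDegree + e ≤ e * Q0.natDegree := by
      calc e * (Q0.map f).natDegree + e = e * ((Q0.map f).natDegree + 1) := by ring
        _ ≤ e * Q0.natDegree := Nat.mul_le_mul_left _ h1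
    omega

end Pool.Agent.Helper40.Frob
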