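import Mathlib

/-!
# Unipotent isometries of quadratic spaces

A unipotent isometry `u` of a nondegenerate symmetric bilinear space of dimension `w` over a
field of characteristic not `2` satisfies `(u - 1) ^ j = 0` for `j` the largest odd number `≤ w`
(`j = 1` if `w = 0`).
-/

open Polynomial Module

namespace Pool.Agent.Helper40.Frob

variable {K V : Type*} [Field K] [AddCommGroup V] [Module K V] [FiniteDimensional K V]

section adj

variable {B : LinearMap.BilinForm K V} {u : End K V} (hu : ∀ x y, B (u x) (u y) = B x y)
include hu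

theorem adj1 (x y : V) : B ((u - 1) x) (u y) = - B x ((u - 1) y) := by
  simp only [LinearMap.sub_apply, End.one_apply, map_sub, hu]
  ring

theorem adjj (j : ℕ) (x y : V) :
    B (((u - 1) ^ j) x) ((u ^ j) y) = (-1) ^ j * B x (((u - 1) ^ j) y) := by
  induction j generalizing x y with
  | zero => simp
  | succ j ih =>
    have h1 : ((u - 1) ^ (j + 1)) x = (u - 1) (((u - 1) ^ j) x) := by
      rw [pow_succ', Module.End.mul_apply]
    have h2 : (u ^ (j + 1)) y = u ((u ^ j) y) := by rw [pow_succ', Module.End.mul_apply]
    have h3 : (u - 1) ((u ^ j) y) = (u ^ j) ((u - 1) y) := by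
      have hc : Commute (u - 1) (u ^ j) :=
        (Commute.sub_left (Commute.refl u) (Commute.one_left u)).pow_right j
      have := congrArg (fun g : End K V => g y) hc.eq
      simpa [Module.End.mul_apply] using this
    have h4 : ((u - 1) ^ (j + 1)) y = ((u - 1) ^ j) ((u - 1) y) := by
      rw [pow_succ, Module.End.mul_apply]
    rw [h1, h2, adj1 hu, h3, ih, h4, pow_succ]
    ring

theorem surj (hB : B.Nondegenerate) : Function.Surjective u := by
  have hinj : Function.Injective u := by
    rw [injective_iff_map_eq_zero]
    intro x hx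
    apply hB.1
    intro y
    rw [← hu, hx, map_zero, LinearMap.zero_apply]
  exact LinearMap.injective_iff_surjective.1 hinj

theorem surj_pow (hB : B.Nondegenerate) (j : ℕ) : Function.Surjective (u ^ j) := by
  induction j with
  | zero => exact fun x => ⟨x, rfl⟩
  | succ j ih =>
    rw [pow_succ']
    exact (surj hu hB).comp ih

theorem orth_range (hB : B.Nondegenerate) {j : ℕ} (hn : (u - 1) ^ (j + 1) = 0) (x z : V) :
    B (((u - 1) ^ j) x) ((u - 1) z) = 0 := by
  obtain ⟨z', rfl⟩ := surj_pow hu hB j z
  have h3 : (u - 1) ((u ^ j) z') = (u ^ j) ((u - 1) z') := by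
    have hc : Commute (u - 1) (u ^ j) :=
      (Commute.sub_left (Commute.refl u) (Commute.one_left u)).pow_right j
    have := congrArg (fun g : End K V => g z') hc.eq
    simpa [Module.End.mul_apply] using this
  rw [h3, adjj hu]
  have h4 : ((u - 1) ^ j) ((u - 1) z') = 0 := by
    rw [← Module.End.mul_apply, ← pow_succ, hn, LinearMap.zero_apply]
  rw [h4, map_zero, mul_zero]

theorem top_adj (hB : B.Nondegenerate) {j : ℕ} (hn : (u - 1) ^ (j + 1) = 0) (x y : V) :
    B (((u - 1) ^ j) x) y = (-1) ^ j * B x (((u - 1) ^ j) y) := by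
  rw [← adjj hu]
  have key : ∀ k : ℕ, B (((u - 1) ^ j) x) ((u ^ k) y) = B (((u - 1) ^ j) x) y := by
    intro k
    induction k with
    | zero => simp
    | succ k ih =>
      have h2 : (u ^ (k + 1)) y = (u ^ k) y + (u - 1) ((u ^ k) y) := by
        rw [pow_succ', Module.End.mul_apply]
        simp
      rw [h2, map_add, orth_range hu hB hn, add_zero, ih]
  exact (key j).symm

end adj

/-- unipotent isometries: an even Jordan block cannot fill the whole space -/
theorem unipotent_isometry (h2 : (2 : K) ≠ 0) {B : LinearMap.BilinForm K V}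
    (hB : B.Nondegenerate) (hs : ∀ x y, B x y = B y x) {u : End K V}
    (hu : ∀ x y, B (u x) (u y) = B x y) (hn : IsNilpotent (u - 1)) :
    (u - 1) ^ (2 * ((finrank K V - 1) / 2) + 1) = 0 := by
  set w := finrank K V with hw
  set n : End K V := u - 1 with hndef
  have hnw : n ^ w = 0 := by
    have h1 : n.charpoly = X ^ w := ((LinearMap.charpoly_nilpotent_tfae n).out 0 1).1 hn
    have h2 := n.aeval_self_charpoly
    rwa [h1, map_pow, aeval_X] at h2
  rcases Nat.eq_zero_or_pos w with hw0 | hwpos
  · have : Subsingleton V := finrank_zero_iff.1 (hw ▸ hw0)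
    exact Subsingleton.elim _ _
  rcases Nat.even_or_odd w with hev | hodd
  · -- even case
    obtain ⟨k, hk⟩ := hev
    have he : 2 * ((w - 1) / 2) + 1 = w - 1 := by omega
    rw [he]
    by_contra hne
    obtain ⟨x0, hx0⟩ : ∃ x0, (n ^ (w - 1)) x0 ≠ 0 := by
      by_contra hc
      push Not at hc
      exact hne (LinearMap.ext hc)
    have hn' : n ^ (w - 1 + 1) = 0 := by rwa [Nat.sub_add_cancel hwpos]
    have hpow0 : ∀ i, w ≤ i → (n ^ i) x0 = 0 := by
      intro i hi
      obtain ⟨c, rfl⟩ := Nat.exists_eq_add_of_le hi
      rw [pow_add, hnw, zero_mul, LinearMap.zero_apply]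
    have hli : LinearIndependent K (fun k : Fin w => (n ^ (k : ℕ)) x0) := by
      rw [Fintype.linearIndependent_iff]
      intro a ha
      have key : ∀ m : ℕ, ∀ k : Fin w, (k : ℕ) = m → a k = 0 := by
        intro m
        induction m using Nat.strong_induction_on with
        | _ m ih =>
          intro k hk
          have h1 := congrArg (n ^ (w - 1 - m)) ha
          rw [map_sum, map_zero, Finset.sum_eq_single k] at h1
          · rw [map_smul, ← Module.End.mul_apply, ← pow_add, hk,
              Nat.sub_add_cancel (by omega)] at h1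
            rcases smul_eq_zero.1 h1 with h3 | h3
            · exact h3
            · exact absurd h3 hx0
          · intro i _ hik
            rcases lt_trichotomy (i : ℕ) m with h3 | h3 | h3
            · rw [ih i h3 i rfl, zero_smul, map_zero]
            · exact absurd (Fin.ext (h3.trans hk.symm)) hik
            · rw [map_smul, ← Module.End.mul_apply, ← pow_add, hpow0 _ (by omega), smul_zero]
          · intro h3
            exact absurd (Finset.mem_univ k) h3
      exact fun k => key k k rfl
    have hspan : Submodule.span K (Set.range (fun k : Fin w => (n ^ (k : ℕ)) x0)) = ⊤ :=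
      hli.span_eq_top_of_card_eq_finrank' (by simp [hw])
    apply hx0
    apply hB.1
    intro y
    have hy : y ∈ Submodule.span K (Set.range (fun k : Fin w => (n ^ (k : ℕ)) x0)) := by
      rw [hspan]; trivial
    refine Submodule.span_induction ?_ ?_ ?_ ?_ hy
    · rintro _ ⟨i, rfl⟩
      rcases Nat.eq_zero_or_pos (i : ℕ) with hi | hi
      · simp only [hi, pow_zero, Module.End.one_apply]
        have h3 := top_adj hu hB hn' x0 x0
        have hodd : Odd (w - 1) := ⟨k - 1, by omega⟩
        rw [hodd.neg_one_pow, hs x0] at h3
        have h4 : 2 * B (((u - 1) ^ (w - 1)) x0) x0 = 0 := by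
          linear_combination h3
        rcases mul_eq_zero.1 h4 with h5 | h5
        · exact absurd h5 h2
        · exact h5
      · obtain ⟨c, hc⟩ := Nat.exists_eq_add_of_lt hi
        have h3 : (n ^ (i : ℕ)) x0 = n ((n ^ c) x0) := by
          rw [hc, zero_add, pow_succ', Module.End.mul_apply]
        change B ((n ^ (w - 1)) x0) ((n ^ (i : ℕ)) x0) = 0
        rw [h3]
        exact orth_range hu hB hn' _ _
    · exact map_zero _
    · intro a b _ _ ha hb
      rw [map_add, ha, hb, add_zero]
    · intro c a _ ha
      rw [map_smul, ha, smul_zero]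
  · obtain ⟨k, hk⟩ := hodd
    have he : 2 * ((w - 1) / 2) + 1 = w := by omega
    rw [he]
    exact hnw

end Pool.Agent.Helper40.Frob
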