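import Pool.Agent.Helper40.Frob.Tate
import Pool.Agent.Helper40.Frob.Mult

/-!
# Jordan blocks of a Frobenius endomorphism with rational characteristic polynomial
-/

open Polynomial Module

namespace Pool.Agent.Helper40.Frob

variable {K V : Type*} [Field K] [CharZero K] [AddCommGroup V] [Module K V]
  [FiniteDimensional K V]

/-- the endomorphism `Q(F)` for a rational polynomial `Q` -/
noncomputable def ev (F : End K V) (Q : ℚ[X]) : End K V := aeval F (Q.map (algebraMap ℚ K))

theorem ev_mul (F : End K V) (Q R : ℚ[X]) : ev F (Q * R) = ev F Q * ev F R := by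
  unfold ev
  rw [Polynomial.map_mul, map_mul]

theorem ev_add (F : End K V) (Q R : ℚ[X]) : ev F (Q + R) = ev F Q + ev F R := by
  unfold ev
  rw [Polynomial.map_add, map_add]

theorem ev_one (F : End K V) : ev F 1 = 1 := by
  unfold ev
  rw [Polynomial.map_one, map_one]

theorem ev_zero (F : End K V) : ev F 0 = 0 := by
  unfold ev
  rw [Polynomial.map_zero, map_zero]

theorem ev_pow (F : End K V) (Q : ℚ[X]) (n : ℕ) : ev F (Q ^ n) = ev F Q ^ n := by
  unfold ev
  rw [Polynomial.map_pow, map_pow]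

theorem ev_X_pow_sub (F : End K V) (m : ℕ) : ev F (X ^ m - 1) = F ^ m - 1 := by
  unfold ev
  rw [Polynomial.map_sub, Polynomial.map_pow, map_X, Polynomial.map_one, map_sub, map_pow,
    aeval_X, map_one]

theorem ev_apply_mul (F : End K V) (Q R : ℚ[X]) (x : V) :
    ev F (Q * R) x = ev F Q (ev F R x) := by
  rw [ev_mul, End.mul_apply]

/-- coprime polynomials have no common kernel -/
theorem ev_coprime {F : End K V} {Q R : ℚ[X]} (h : IsCoprime Q R) {x : V} (h1 : ev F Q x = 0)
    (h2 : ev F R x = 0) : x = 0 := by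
  obtain ⟨a, b, hab⟩ := h
  have h3 : ev F (a * Q + b * R) x = x := by rw [hab, ev_one, End.one_apply]
  rw [← h3, ev_add, LinearMap.add_apply, ev_apply_mul, ev_apply_mul, h1, h2, map_zero, map_zero,
    add_zero]

/-- the multiplicity of a factor of the characteristic polynomial bounds the nilpotency -/
theorem nilp_le {F : End K V} {P : ℚ[X]} (hP0 : P ≠ 0) (hPF : ev F P = 0) {Q : ℚ[X]}
    (hQ : Irreducible Q) {b : ℕ} (hb : ∀ e, Q ^ e ∣ P → e ≤ b) (n : ℕ) (x : V)
    (hx : (ev F Q ^ n) x = 0) : (ev F Q ^ b) x = 0 := by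
  have hfin : FiniteMultiplicity Q P := FiniteMultiplicity.of_prime_left hQ.prime hP0
  obtain ⟨R, hR, hnR⟩ := hfin.exists_eq_pow_mul_and_not_dvd
  set e := multiplicity Q P
  have he : e ≤ b := hb e ⟨R, hR⟩
  have hcop : IsCoprime (Q ^ n) R :=
    ((hQ.coprime_iff_not_dvd).2 hnR).pow_left
  have h1 : ev F (Q ^ e) x = 0 := by
    apply ev_coprime hcop (F := F)
    · rw [← ev_apply_mul, mul_comm, ev_apply_mul, ev_pow F Q n, hx, map_zero]
    · rw [← ev_apply_mul, mul_comm, ← hR, hPF, LinearMap.zero_apply]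
  obtain ⟨c, rfl⟩ := Nat.exists_eq_add_of_le he
  rw [add_comm, pow_add, End.mul_apply, ← ev_pow F Q e, h1, map_zero]

/-- an irreducible rational polynomial with a root of unity as root divides `X ^ m - 1` -/
theorem dvd_X_pow_sub_one {Q : ℚ[X]} (hQ : Irreducible Q) {z : ℂ} (hz : aeval z Q = 0) {m : ℕ}
    (hzm : z ^ m = 1) : Q ∣ X ^ m - 1 := by
  have h1 : minpoly ℚ z ∣ Q := minpoly.dvd ℚ z hz
  have hint : IsIntegral ℚ z := by
    rw [← isAlgebraic_iff_isIntegral]
    exact ⟨Q, hQ.ne_zero, hz⟩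
  have h2 : Associated (minpoly ℚ z) Q :=
    (minpoly.irreducible hint).associated_of_dvd hQ h1
  refine h2.symm.dvd.trans (minpoly.dvd ℚ z ?_)
  rw [map_sub, map_pow, aeval_X, map_one, hzm, sub_self]

theorem semisimple_of {F : End K V} {P : ℚ[X]} (hP0 : P ≠ 0) (hPF : ev F P = 0)
    (hQ : ∀ Q : ℚ[X], Irreducible Q → Q ∣ P → ∀ x, ev F Q (ev F Q x) = 0 → ev F Q x = 0) :
    F.IsSemisimple := by
  classical
  -- a nonzero rational polynomial of minimal degree killing `F`
  have hex : ∃ n : ℕ, ∃ G : ℚ[X], G ≠ 0 ∧ ev F G = 0 ∧ G.natDegree = n := ⟨_, P, hP0, hPF, rfl⟩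
  obtain ⟨G, hG0, hGF, hGn⟩ := Nat.find_spec hex
  have hmin : ∀ R : ℚ[X], R ≠ 0 → ev F R = 0 → G.natDegree ≤ R.natDegree := by
    intro R hR hRF
    rw [hGn]
    exact Nat.find_min' hex ⟨R, hR, hRF, rfl⟩
  have hGP : G ∣ P := by
    rw [← EuclideanDomain.mod_eq_zero]
    by_contra hr
    have h1 : ev F (P % G) = 0 := by
      have h2 : P % G = P + (-(P / G)) * G := by
        have := EuclideanDomain.mod_add_div P G
        linear_combination this
      rw [h2, ev_add, ev_mul, hPF, hGF, mul_zero, add_zero]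
    have h3 := hmin _ hr h1
    have h4 : (P % G).natDegree < G.natDegree := by
      apply natDegree_mod_lt
      intro h5
      -- then `G` is a nonzero constant
      obtain ⟨c, hc⟩ := natDegree_eq_zero.1 h5
      have hc0 : c ≠ 0 := by
        rintro rfl
        rw [C_0] at hc
        exact hG0 hc.symm
      have : G ∣ P := by
        rw [← hc]
        exact (isUnit_C.2 (isUnit_iff_ne_zero.2 hc0)).dvd
      exact hr (EuclideanDomain.mod_eq_zero.2 this)
    omega
  have hsq : Squarefree G := by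
    rw [squarefree_iff_no_irreducibles hG0]
    rintro Q hQi ⟨H, hH⟩
    have hQH0 : Q * H ≠ 0 := by
      intro h0
      apply hG0
      rw [hH, mul_assoc, h0, mul_zero]
    have h1 : ev F (Q * H) = 0 := by
      ext x
      rw [LinearMap.zero_apply, ev_apply_mul]
      apply hQ Q hQi ((Dvd.intro _ (by rw [hH, mul_assoc])).trans hGP)
      rw [← ev_apply_mul, ← ev_apply_mul, ← hH, hGF, LinearMap.zero_apply]
    have h2 := hmin _ hQH0 h1
    have h3 : G.natDegree = Q.natDegree + (Q * H).natDegree := by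
      rw [hH, mul_assoc, natDegree_mul hQi.ne_zero hQH0]
    have h4 := hQi.natDegree_pos
    omega
  have hsep : G.Separable := PerfectField.separable_iff_squarefree.2 hsq
  have hsep' : (G.map (algebraMap ℚ K)).Separable := hsep.map
  exact End.isSemisimple_of_squarefree_aeval_eq_zero hsep'.squarefree hGF

/-- the part at roots of unity -/
theorem tate_part {B : LinearMap.BilinForm K V} (hB : B.Nondegenerate)
    (hs : ∀ x y, B x y = B y x) {F : End K V} (hF : ∀ x y, B (F x) (F y) = B x y)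
    (N : Submodule K V) {M : ℕ} (hM : 0 < M) (hN : ∀ x ∈ N, (F ^ M) x = x)
    (hNn : (B.restrict N).Nondegenerate)
    (hdim : ∀ m : ℕ, 0 < m → finrank K ((F ^ m).maxGenEigenspace 1) ≤ finrank K N + 2)
    {Q : ℚ[X]} (hQ : Irreducible Q) (hQ1 : ¬ NoUnityRoot Q) (x : V)
    (hx : ev F Q (ev F Q x) = 0) : ev F Q x = 0 := by
  unfold NoUnityRoot at hQ1
  push Not at hQ1
  obtain ⟨z, hz, n, hn, hzn⟩ := hQ1
  have hm : 0 < n * M := Nat.mul_pos hn hM
  have hdvd : Q ∣ X ^ (n * M) - 1 :=
    dvd_X_pow_sub_one hQ hz (by rw [pow_mul, hzn, one_pow])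
  obtain ⟨R, hR⟩ := hdvd
  have hpow : ∀ k : ℕ, ∀ a b, B ((F ^ k) a) ((F ^ k) b) = B a b := by
    intro k
    induction k with
    | zero => intro a b; rfl
    | succ k ih =>
      intro a b
      rw [pow_succ, End.mul_apply, End.mul_apply, ih, hF]
  have hfix : ∀ y ∈ N, (F ^ (n * M)) y = y := by
    intro y hy
    have : ∀ k : ℕ, ((F ^ M) ^ k) y = y := by
      intro k
      induction k with
      | zero => rfl
      | succ k ih => rw [pow_succ, End.mul_apply, hN y hy, ih]
    rw [mul_comm, pow_mul]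
    exact this n
  have h2 : (2 : K) ≠ 0 := two_ne_zero
  have hQR : ev F Q (ev F R x) = (F ^ (n * M) - 1) x := by
    rw [← ev_apply_mul, ← hR, ev_X_pow_sub]
  have hsq : (((F ^ (n * M) - 1 : End K V) ^ 2 : End K V)) x = 0 := by
    have h3 : ev F ((Q * R) * (Q * R)) x = 0 := by
      have h4 : (Q * R) * (Q * R) = (R * R) * (Q * Q) := by ring
      rw [h4, ev_apply_mul, ev_apply_mul F Q Q, hx, map_zero]
    rw [← hR, ev_mul, ev_X_pow_sub] at h3
    rw [pow_two]
    exact h3
  have h5 := tate_block h2 hB hs (u := F ^ (n * M)) (hpow _) N hfix hNn x ⟨2, hsq⟩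
  have h6 : 2 * ((finrank K ((F ^ (n * M)).maxGenEigenspace 1) - finrank K N - 1) / 2) + 1 = 1 := by
    have := hdim (n * M) hm
    omega
  rw [h6, pow_one, ← hQR] at h5
  have hcop : IsCoprime Q R := by
    have hsep : ((X ^ (n * M) - 1 : ℚ[X])).Separable :=
      X_pow_sub_one_separable_iff.2 (by exact_mod_cast hm.ne')
    rw [hR] at hsep
    exact hsep.isCoprime
  apply ev_coprime hcop (F := F) hx
  rw [← ev_apply_mul, mul_comm, ev_apply_mul]
  exact h5

end Pool.Agent.Helper40.Frob
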