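import Pool.Agent.Helper40.Frob.Orth

/-!
# Generalised fixed vectors of an isometry
-/

open Polynomial Module

namespace Pool.Agent.Helper40.Frob

variable {K V : Type*} [Field K] [AddCommGroup V] [Module K V] [FiniteDimensional K V]

/-- If `u` is an isometry, `N` a nondegenerate subspace fixed pointwise by `u`, and `w` is the
codimension of `N` in the space `E` of generalised fixed vectors, then `(u - 1) ^ j` vanishes on
`E` for `j` the largest odd number `≤ w` (`j = 1` if `w = 0`). -/
theorem tate_block (h2 : (2 : K) ≠ 0) {B : LinearMap.BilinForm K V}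
    (hB : B.Nondegenerate) (hs : ∀ x y, B x y = B y x) {u : End K V}
    (hu : ∀ x y, B (u x) (u y) = B x y) (N : Submodule K V) (hN : ∀ x ∈ N, u x = x)
    (hNn : (B.restrict N).Nondegenerate) (x : V) (hx : ∃ k : ℕ, ((u - 1) ^ k) x = 0) :
    ((u - 1) ^ (2 * ((finrank K (u.maxGenEigenspace 1) - finrank K N - 1) / 2) + 1)) x = 0 := by
  set E := u.maxGenEigenspace 1 with hE
  have hmem : ∀ y, y ∈ E ↔ ∃ k : ℕ, ((u - 1) ^ k) y = 0 := by
    intro y
    rw [hE, End.mem_maxGenEigenspace, one_smul]
  have hrefl : B.IsRefl := fun a b hab => by rw [hs]; exact hab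
  -- a Fitting decomposition
  obtain ⟨d, hd, hEd⟩ : ∃ d : ℕ, IsCompl (LinearMap.ker ((u - 1) ^ d))
      (LinearMap.range ((u - 1) ^ d)) ∧ ∀ y ∈ E, ((u - 1) ^ d) y = 0 := by
    obtain ⟨k, hk⟩ := Filter.eventually_atTop.1 (LinearMap.eventually_isCompl_ker_pow_range_pow
      (u - 1))
    refine ⟨max k (finrank K V), hk _ (le_max_left _ _), ?_⟩
    intro y hy
    have h1 : y ∈ u.genEigenspace 1 (finrank K V) := by
      rw [← End.maxGenEigenspace_eq_genEigenspace_finrank]
      exact hy
    rw [End.mem_genEigenspace_nat, one_smul, LinearMap.mem_ker] at h1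
    obtain ⟨c, hc⟩ := Nat.exists_eq_add_of_le (le_max_right k (finrank K V))
    rw [hc, add_comm, pow_add, End.mul_apply, h1, map_zero]
  have horth : ∀ e ∈ E, ∀ z, B e (((u - 1) ^ d) z) = 0 := by
    intro e he z
    have h1 := adjj hu d e z
    rw [hEd e he, map_zero, LinearMap.zero_apply] at h1
    rcases mul_eq_zero.1 h1.symm with h3 | h3
    · exact absurd h3 (pow_ne_zero _ (neg_ne_zero.2 one_ne_zero))
    · exact h3
  have hNE : N ≤ E := by
    intro y hy
    rw [hmem]
    refine ⟨1, ?_⟩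
    rw [pow_one, LinearMap.sub_apply, hN y hy, End.one_apply, sub_self]
  have hNc : IsCompl N (B.orthogonal N) :=
    B.isCompl_orthogonal_of_restrict_nondegenerate hrefl hNn
  set W := E ⊓ B.orthogonal N with hW
  -- decomposition of elements of `E`
  have hdec : ∀ e ∈ E, ∃ a ∈ N, ∃ b ∈ W, e = a + b := by
    intro e he
    have h1 : e ∈ N ⊔ B.orthogonal N := by rw [hNc.sup_eq_top]; trivial
    obtain ⟨a, ha, b, hb, hab⟩ := Submodule.mem_sup.1 h1
    refine ⟨a, ha, b, ⟨?_, hb⟩, hab.symm⟩
    have : b = e - a := by rw [← hab]; abel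
    rw [SetLike.mem_coe, this]
    exact E.sub_mem he (hNE ha)
  have hsup : N ⊔ W = E := by
    apply le_antisymm
    · exact sup_le hNE inf_le_left
    · intro e he
      obtain ⟨a, ha, b, hb, rfl⟩ := hdec e he
      exact Submodule.add_mem_sup ha hb
  have hinf : N ⊓ W = ⊥ := by
    rw [eq_bot_iff, ← hNc.inf_eq_bot]
    exact inf_le_inf le_rfl inf_le_right
  have hfr : finrank K E - finrank K N = finrank K W := by
    have h1 := Submodule.finrank_sup_add_finrank_inf_eq N W
    rw [hsup, hinf, finrank_bot] at h1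
    omega
  rw [hfr]
  -- `u` on `W`
  have huE : ∀ y ∈ E, u y ∈ E := by
    intro y hy
    obtain ⟨k, hk⟩ := (hmem y).1 hy
    refine (hmem _).2 ⟨k, ?_⟩
    have hc : Commute ((u - 1) ^ k) u :=
      ((Commute.sub_left (Commute.refl u) (Commute.one_left u))).pow_left k
    have := congrArg (fun g : End K V => g y) hc.eq
    simp only [End.mul_apply] at this
    rw [this, hk, map_zero]
  have huW : ∀ y ∈ W, u y ∈ W := by
    rintro y ⟨hy1, hy2⟩
    refine ⟨huE y hy1, ?_⟩
    rw [SetLike.mem_coe, LinearMap.BilinForm.mem_orthogonal_iff] at hy2 ⊢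
    intro a ha
    have h1 : B a y = 0 := hy2 a ha
    change B a (u y) = 0
    rw [← hu a y, hN a ha] at h1
    exact h1
  let uW : End K W := u.restrict huW
  have hcoe : ∀ (k : ℕ) (y : W), ((((uW - 1) ^ k) y : W) : V) = ((u - 1) ^ k) (y : V) := by
    intro k
    induction k with
    | zero => intro y; simp
    | succ k ih =>
      intro y
      rw [pow_succ, pow_succ, End.mul_apply, End.mul_apply, ih]
      congr 1
  have hnil : IsNilpotent (uW - 1) := by
    refine ⟨d, LinearMap.ext fun y => Subtype.ext ?_⟩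
    rw [hcoe, hEd _ y.2.1]
    rfl
  have hWn : (B.restrict W).Nondegenerate := by
    rw [LinearMap.BilinForm.restrict_nondegenerate_iff_isCompl_orthogonal hrefl,
      B.isCompl_orthogonal_iff_disjoint hrefl, Submodule.disjoint_def]
    intro y hy hy'
    rw [LinearMap.BilinForm.mem_orthogonal_iff] at hy'
    apply hB.1
    intro v
    have hv : v ∈ LinearMap.ker ((u - 1) ^ d) ⊔ LinearMap.range ((u - 1) ^ d) := by
      rw [hd.sup_eq_top]; trivial
    obtain ⟨e, he, r, ⟨z, rfl⟩, hez⟩ := Submodule.mem_sup.1 hv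
    have heE : e ∈ E := (hmem e).2 ⟨d, he⟩
    obtain ⟨a, ha, b, hb, rfl⟩ := hdec e heE
    have h1 : B a y = 0 := (LinearMap.BilinForm.mem_orthogonal_iff.1 hy.2) a ha
    have h3 : B b y = 0 := hy' b hb
    rw [← hez, map_add, map_add, hs y a, hs y b, h1, h3, horth y hy.1, add_zero, add_zero]
  have hmain := unipotent_isometry h2 hWn (fun a b => hs a b) (u := uW)
    (fun a b => hu a b) hnil
  obtain ⟨a, ha, b, hb, rfl⟩ := hdec x ((hmem x).2 hx)
  have h1 : ((u - 1) ^ (2 * ((finrank K W - 1) / 2) + 1)) a = 0 := by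
    rw [pow_succ, End.mul_apply, LinearMap.sub_apply, hN a ha, End.one_apply, sub_self, map_zero]
  have h3 : ((u - 1) ^ (2 * ((finrank K W - 1) / 2) + 1)) b = 0 := by
    have := hcoe (2 * ((finrank K W - 1) / 2) + 1) ⟨b, hb⟩
    rw [hmain] at this
    exact this.symm
  rw [map_add, h1, h3, add_zero]

end Pool.Agent.Helper40.Frob
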